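import Pool.Agent.Helper14.FO.Defs

set_option autoImplicit false

namespace Pool.Agent.Helper14.FO

theorem asy_pow {V : Type} (G : SimpleGraph V) (n : ℕ) (u v : Fin n → V) :
    (u ≠ v ∧ ¬ (strongPow G n).Adj u v) ↔ ∃ i, Gᶜ.Adj (u i) (v i) := by
  constructor
  · rintro ⟨h1, h2⟩
    by_contra h3
    apply h2
    refine ⟨h1, fun i => ?_⟩
    by_contra h4
    rw [not_or] at h4
    exact h3 ⟨i, (SimpleGraph.compl_adj G _ _).2 h4⟩
  · rintro ⟨i, hi⟩
    rw [SimpleGraph.compl_adj] at hi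
    refine ⟨fun h => hi.1 (congrFun h i), fun h => ?_⟩
    rcases h.2 i with h' | h'
    · exact hi.1 h'
    · exact hi.2 h'

theorem asy_prod {W : Type} (H : SimpleGraph W) (n k : ℕ) (a b : Fin k × (Fin n → W)) :
    (a ≠ b ∧ ¬ (strongProd (⊥ : SimpleGraph (Fin k)) (strongPow H n)).Adj a b) ↔
      (a.1 ≠ b.1 ∨ ∃ i, Hᶜ.Adj (a.2 i) (b.2 i)) := by
  constructor
  · rintro ⟨h1, h2⟩
    by_contra h3
    rw [not_or, not_not] at h3
    obtain ⟨h4, h5⟩ := h3
    rw [← asy_pow] at h5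
    have h6 : a.2 ≠ b.2 := fun h => h1 (Prod.ext h4 h)
    apply h2
    refine ⟨h1, Or.inl h4, Or.inr ?_⟩
    by_contra h7
    exact h5 ⟨h6, h7⟩
  · rintro (h | h)
    · refine ⟨fun h' => h (congrArg Prod.fst h'), fun h' => ?_⟩
      rcases h'.2.1 with h'' | h''
      · exact h h''
      · exact h''
    · rw [← asy_pow] at h
      refine ⟨fun h' => h.1 (congrArg Prod.snd h'), fun h' => ?_⟩
      rcases h'.2.2 with h'' | h''
      · exact h.1 h''
      · exact h.2 h''

theorem asy_hom {V W : Type} (G : SimpleGraph V) (H : SimpleGraph W) (n k : ℕ) :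
    CoLE (strongPow G n) (strongProd (⊥ : SimpleGraph (Fin k)) (strongPow H n)) ↔
      PowHom Gᶜ Hᶜ n k := by
  constructor
  · rintro ⟨f, hf⟩
    refine ⟨f, fun u v huv => ?_⟩
    rw [← asy_pow] at huv
    exact (asy_prod H n k (f u) (f v)).1 (hf u v huv.1 huv.2)
  · rintro ⟨f, hf⟩
    refine ⟨f, fun u v h1 h2 => ?_⟩
    exact (asy_prod H n k (f u) (f v)).2 (hf u v ((asy_pow G n u v).1 ⟨h1, h2⟩))

theorem asy_growth (k : ℕ → ℕ) (hk : ∀ n, 0 < k n) :
    Filter.Tendsto (fun n => Real.logb 2 (k n) / n) Filter.atTop (nhds 0) ↔ SubExp k := by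
  have hl2 : 0 < Real.log 2 := Real.log_pos (by norm_num)
  constructor
  · intro h ε hε
    rw [Metric.tendsto_atTop] at h
    obtain ⟨N, hN⟩ := h (ε / Real.log 2) (div_pos hε hl2)
    refine ⟨N + 1, fun n hn => ?_⟩
    have h1 := hN n (by omega)
    have hn0 : (0 : ℝ) < n := by
      have : 0 < n := by omega
      exact_mod_cast this
    have hkn : (0 : ℝ) < k n := by exact_mod_cast hk n
    rw [Real.dist_eq, sub_zero] at h1
    have h2 := lt_of_le_of_lt (le_abs_self _) h1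
    rw [Real.logb, div_div, mul_comm (Real.log 2) (n : ℝ), ← div_div,
      div_lt_div_iff_of_pos_right hl2, div_lt_iff₀ hn0] at h2
    rw [← Real.log_le_iff_le_exp hkn]
    exact h2.le
  · intro h
    rw [Metric.tendsto_atTop]
    intro ε hε
    obtain ⟨N, hN⟩ := h (ε * Real.log 2 / 2) (by positivity)
    refine ⟨N + 1, fun n hn => ?_⟩
    have h1 := hN n (by omega)
    have hn0 : (0 : ℝ) < n := by
      have : 0 < n := by omega
      exact_mod_cast this
    have hkn : (0 : ℝ) < k n := by exact_mod_cast hk n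
    have hk1 : (1 : ℝ) ≤ k n := by exact_mod_cast hk n
    rw [← Real.log_le_iff_le_exp hkn] at h1
    have h3 : 0 ≤ Real.log (k n : ℝ) := Real.log_nonneg hk1
    have h4 : 0 ≤ Real.logb 2 (k n) / n := by
      rw [Real.logb]
      positivity
    rw [Real.dist_eq, sub_zero, abs_of_nonneg h4, Real.logb, div_div,
      div_lt_iff₀ (mul_pos hl2 hn0)]
    calc Real.log (k n : ℝ) ≤ ε * Real.log 2 / 2 * n := h1
      _ < ε * (Real.log 2 * n) := by nlinarith [mul_pos (mul_pos hε hl2) hn0]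

theorem st_ASY : ST_ASY := by
  intro V W G H
  constructor
  · rintro ⟨k, hk, hg, h⟩
    exact ⟨k, hk, (asy_growth k hk).1 hg, fun n hn => (asy_hom G H n (k n)).1 (h n hn)⟩
  · rintro ⟨k, hk, hg, h⟩
    exact ⟨k, hk, (asy_growth k hk).2 hg, fun n hn => (asy_hom G H n (k n)).2 (h n hn)⟩

end Pool.Agent.Helper14.FO
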